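import Pool.Agent.H62.CYC.DefsL

/-!
# Project CYC, task LT: the traces
-/

set_option autoImplicit false

namespace Pool.Agent.H52.CYC.LT

open Finset Matrix Polynomial
open Pool.Agent.H62.CYC

section
variable {n m : ℕ} (W : Matrix (Fin m) (Fin n) ℂ) (Q : Matrix (Fin n) (Fin n) ℂ)
  (V : Matrix (Fin n) (Fin m) ℂ) (c : Fin m → ℂ)

/-- `tr (Π Z^j) = ∑ (1 - c i)^j` -/
lemma trPi (hWV : W * V = 1) (hQ : Q * Q = Q) (hWQV : W * Q * V = diagonal c) (j : ℕ) :
    (V * W * ((V * W - Q) * (V * W - Q)) ^ j).trace = ∑ i, (1 - c i) ^ j := by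
  set Z := (V * W - Q) * (V * W - Q) with hZ
  have hPV : V * W * V = V := by rw [Matrix.mul_assoc, hWV, Matrix.mul_one]
  have hZV : Z * V = V * diagonal (fun i => 1 - c i) := by
    have h1 : Z * V = V - V * (W * Q * V) := by
      have e1 : (V * W - Q) * V = V - Q * V := by rw [Matrix.sub_mul, hPV]
      rw [hZ, Matrix.mul_assoc, e1, Matrix.mul_sub, Matrix.sub_mul, Matrix.sub_mul, hPV,
        ← Matrix.mul_assoc Q Q V, hQ]
      simp only [Matrix.mul_assoc]
      abel
    rw [h1, hWQV]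
    have : (diagonal fun i => 1 - c i : Matrix (Fin m) (Fin m) ℂ) = 1 - diagonal c := by
      rw [← diagonal_one, ← diagonal_sub]
    rw [this, Matrix.mul_sub, Matrix.mul_one]
  have hZjV : Z ^ j * V = V * diagonal (fun i => (1 - c i) ^ j) := by
    induction j with
    | zero => simp
    | succ j ih =>
      rw [pow_succ, Matrix.mul_assoc, hZV, ← Matrix.mul_assoc, ih, Matrix.mul_assoc,
        diagonal_mul_diagonal]
      simp only [pow_succ]
  rw [Matrix.mul_assoc, trace_mul_comm, Matrix.mul_assoc, hZjV, ← Matrix.mul_assoc, hWV,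
    Matrix.one_mul, trace_diagonal]

end

section
variable {n : ℕ} (P Q : Matrix (Fin n) (Fin n) ℂ)

lemma odd_tr (hP : P * P = P) (hQ : Q * Q = Q) (htr : Q.trace = P.trace) (j : ℕ) :
    ((P - Q) ^ (2 * j + 1)).trace = 0 := by
  set A := 1 - P - Q with hA
  set B := P - Q with hB
  have hAB : A * B = - (B * A) := by
    rw [hA, hB]
    have : (1 - P - Q) * (P - Q) + (P - Q) * (1 - P - Q) =
      (P - P * P) + (P - P * P) + (Q * Q - Q) + (Q * Q - Q) := by noncomm_ring
    rw [hP, hQ] at this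
    simp only [sub_self, add_zero] at this
    exact eq_neg_of_add_eq_zero_left this
  have hA2 : A * A = 1 - B * B := by
    rw [hA, hB]
    have : (1 - P - Q) * (1 - P - Q) + (P - Q) * (P - Q) =
      1 + (P * P - P) + (P * P - P) + (Q * Q - Q) + (Q * Q - Q) := by noncomm_ring
    rw [hP, hQ] at this
    simp only [sub_self, add_zero] at this
    exact eq_sub_of_add_eq this
  have hAodd : ∀ j : ℕ, A * B ^ (2 * j + 1) = - (B ^ (2 * j + 1) * A) := by
    intro j
    induction j with
    | zero => simpa using hAB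
    | succ j ih =>
      have e : 2 * (j + 1) + 1 = (2 * j + 1) + 1 + 1 := by ring
      rw [e, pow_succ, pow_succ, ← Matrix.mul_assoc, ← Matrix.mul_assoc, ih]
      rw [Matrix.neg_mul, Matrix.neg_mul, Matrix.mul_assoc _ A B, hAB, Matrix.mul_neg,
        Matrix.neg_mul, neg_neg, ← Matrix.mul_assoc, Matrix.mul_assoc _ A B, hAB, Matrix.mul_neg]
      simp only [Matrix.mul_assoc]
  induction j with
  | zero => simp [hB, trace_sub, htr]
  | succ j ih =>
    have e : 2 * (j + 1) + 1 = (2 * j + 1) + 1 + 1 := by ring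
    have hBB : B * B = 1 - A * A := by rw [hA2]; abel
    rw [e, pow_succ, pow_succ, Matrix.mul_assoc, hBB, Matrix.mul_sub, Matrix.mul_one, trace_sub, ih,
      zero_sub, neg_eq_zero]
    have h1 : (B ^ (2 * j + 1) * (A * A)).trace = - (B ^ (2 * j + 1) * (A * A)).trace := by
      conv_lhs => rw [← Matrix.mul_assoc, trace_mul_comm, ← Matrix.mul_assoc, hAodd,
        Matrix.neg_mul, trace_neg, Matrix.mul_assoc]
    exact self_eq_neg.1 h1

lemma even_tr (hP : P * P = P) (hQ : Q * Q = Q) (j : ℕ) :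
    ((1 - P - Q) * ((P - Q) * (P - Q)) ^ (j + 1)).trace = 0 := by
  set A := 1 - P - Q with hA
  set B := P - Q with hB
  have hAB : A * B = - (B * A) := by
    rw [hA, hB]
    have : (1 - P - Q) * (P - Q) + (P - Q) * (1 - P - Q) =
      (P - P * P) + (P - P * P) + (Q * Q - Q) + (Q * Q - Q) := by noncomm_ring
    rw [hP, hQ] at this
    simp only [sub_self, add_zero] at this
    exact eq_neg_of_add_eq_zero_left this
  have h1 : (A * (B * B) ^ (j + 1)).trace = - (A * (B * B) ^ (j + 1)).trace := by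
    conv_lhs => rw [pow_succ', Matrix.mul_assoc B B, ← Matrix.mul_assoc A B, hAB,
      Matrix.neg_mul, trace_neg, Matrix.mul_assoc, trace_mul_comm, Matrix.mul_assoc,
      Matrix.mul_assoc B _ B]
    congr 2
    congr 1
    have hc : (B * B) ^ j * B = B * (B * B) ^ j := by
      have : Commute ((B * B) ^ j) B := by
        apply Commute.pow_left
        exact ((Commute.refl B).mul_left (Commute.refl B))
      exact this.eq
    rw [hc, pow_succ', Matrix.mul_assoc]
  exact self_eq_neg.1 h1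

end

/-- the traces of the powers of `Z` -/
lemma trZ {n m : ℕ} (W : Matrix (Fin m) (Fin n) ℂ) (Q : Matrix (Fin n) (Fin n) ℂ)
    (V : Matrix (Fin n) (Fin m) ℂ) (c : Fin m → ℂ)
    (hWV : W * V = 1) (hQ : Q * Q = Q) (hWQV : W * Q * V = diagonal c)
    (htr : Q.trace = (V * W).trace) (j : ℕ) :
    (((V * W - Q) * (V * W - Q)) ^ (j + 1)).trace = 2 * ∑ i, (1 - c i) ^ (j + 1) := by
  have hP : (V * W) * (V * W) = V * W := by
    rw [Matrix.mul_assoc, ← Matrix.mul_assoc W V W, hWV, Matrix.one_mul]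
  set P := V * W with hPd
  have h1 : (P * ((P - Q) * (P - Q)) ^ (j + 1)).trace = ∑ i, (1 - c i) ^ (j + 1) :=
    trPi W Q V c hWV hQ hWQV (j + 1)
  have h2 : ((P - Q) * ((P - Q) * (P - Q)) ^ (j + 1)).trace = 0 := by
    have e : (P - Q) * ((P - Q) * (P - Q)) ^ (j + 1) = (P - Q) ^ (2 * (j + 1) + 1) := by
      rw [← pow_two, ← pow_mul, ← pow_succ']
    rw [e]
    exact odd_tr P Q hP hQ htr (j + 1)
  have h3 := even_tr P Q hP hQ j
  have h4 : ((P - Q) * (P - Q)) ^ (j + 1) = (2 : ℂ) • (P * ((P - Q) * (P - Q)) ^ (j + 1)) -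
      (P - Q) * ((P - Q) * (P - Q)) ^ (j + 1) + (1 - P - Q) * ((P - Q) * (P - Q)) ^ (j + 1) := by
    rw [two_smul]
    noncomm_ring
  rw [h4, trace_add, trace_sub, trace_smul, h1, h2, h3]
  simp

lemma trPoly {n m : ℕ} (W : Matrix (Fin m) (Fin n) ℂ) (Q : Matrix (Fin n) (Fin n) ℂ)
    (V : Matrix (Fin n) (Fin m) ℂ) (c : Fin m → ℂ)
    (hWV : W * V = 1) (hQ : Q * Q = Q) (hWQV : W * Q * V = diagonal c)
    (htr : Q.trace = (V * W).trace) (g : ℂ[X]) :
    (aeval ((V * W - Q) * (V * W - Q)) g).trace =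
      n * g.eval 0 + 2 * ∑ i, (g.eval (1 - c i) - g.eval 0) := by
  induction g using Polynomial.induction_on' with
  | add p q hp hq =>
    rw [map_add, trace_add, hp, hq]
    simp only [eval_add, sum_sub_distrib, sum_add_distrib]
    ring
  | monomial j a =>
    rw [← C_mul_X_pow_eq_monomial, map_mul, aeval_C, map_pow, aeval_X, ← Algebra.smul_def,
      trace_smul]
    simp only [eval_mul, eval_C, eval_pow, eval_X]
    rcases j with _ | j
    · simp [trace_one, mul_comm]
    · rw [trZ W Q V c hWV hQ hWQV htr j]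
      simp only [smul_eq_mul, zero_pow (Nat.succ_ne_zero j), mul_zero, sub_zero, zero_add,
        ← mul_sum]
      ring

theorem lt : S_LT := by
  intro n m W F Q V c hF hQ htr hWV hWQV hVW k
  set P := V * W with hPd
  have hFP : F = (2 : ℂ) • P - 1 := by
    rw [hVW, smul_smul]
    norm_num
  rw [← hVW] at htr
  set R := (2 : ℂ) • Q - 1 with hR
  have hRR : R * R = 1 := by
    rw [hR]
    have : ((2 : ℂ) • Q - 1) * ((2 : ℂ) • Q - 1) = (4 : ℂ) • (Q * Q) - (4 : ℂ) • Q + 1 := by
      rw [Matrix.sub_mul, Matrix.mul_sub, Matrix.mul_sub, Matrix.smul_mul, Matrix.mul_smul,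
        smul_smul, Matrix.one_mul, Matrix.mul_one, Matrix.one_mul]
      have : (4 : ℂ) • Q = (2 : ℂ) • Q + (2 : ℂ) • Q := by rw [← add_smul]; norm_num
      rw [this]
      norm_num
      abel
    rw [this, hQ]
    simp
  set Z := (P - Q) * (P - Q) with hZ
  have hS : R * F + F * R = (2 : ℂ) • 1 - (4 : ℂ) • Z := by
    have h1 : (R - F) * (R - F) = (4 : ℂ) • Z := by
      have : R - F = (2 : ℂ) • (Q - P) := by
        rw [hFP, hR, smul_sub]
        abel
      rw [this, Matrix.smul_mul, Matrix.mul_smul, smul_smul, hZ]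
      have e : (Q - P) * (Q - P) = (P - Q) * (P - Q) := by
        rw [← neg_sub P Q, neg_mul_neg]
      rw [e]
      norm_num
    have h2 : (R - F) * (R - F) = (2 : ℂ) • 1 - (R * F + F * R) := by
      rw [Matrix.sub_mul, Matrix.mul_sub R R F, Matrix.mul_sub F R F, hRR, hF, two_smul]
      abel
    rw [← h1, h2]
    abel
  have he2 : (aeval Z) (2 : ℂ[X]) = (2 : ℂ) • (1 : Matrix (Fin n) (Fin n) ℂ) := by
    have : (2 : ℂ[X]) = C 2 := (map_ofNat (C : ℂ →+* ℂ[X]) 2).symm
    rw [this, aeval_C, Algebra.algebraMap_eq_smul_one]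
  have he4 : (aeval Z) (4 : ℂ[X]) = (4 : ℂ) • (1 : Matrix (Fin n) (Fin n) ℂ) := by
    have : (4 : ℂ[X]) = C 4 := (map_ofNat (C : ℂ →+* ℂ[X]) 4).symm
    rw [this, aeval_C, Algebra.algebraMap_eq_smul_one]
  -- the polynomials
  have hrec : ∀ k : ℕ, (R * F) ^ k + (F * R) ^ k =
      (2 : ℂ) • aeval Z ((Polynomial.Chebyshev.T ℂ (k : ℤ)).comp (1 - 2 * X)) ∧
      (R * F) ^ (k + 1) + (F * R) ^ (k + 1) =
      (2 : ℂ) • aeval Z ((Polynomial.Chebyshev.T ℂ ((k + 1 : ℕ) : ℤ)).comp (1 - 2 * X)) := by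
    intro k
    induction k with
    | zero =>
      constructor
      · simp [two_smul]
      · simp only [zero_add, pow_one, Nat.cast_one, Polynomial.Chebyshev.T_one, X_comp]
        rw [hS, map_sub, map_one, map_mul, aeval_X, smul_sub]
        congr 1
        rw [he2, Matrix.smul_mul, Matrix.one_mul, smul_smul]
        norm_num
    | succ k ih =>
      refine ⟨ih.2, ?_⟩
      have hPP : (R * F) * (F * R) = 1 := by
        rw [Matrix.mul_assoc, ← Matrix.mul_assoc F F R, hF, Matrix.one_mul, hRR]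
      have hPP' : (F * R) * (R * F) = 1 := by
        rw [Matrix.mul_assoc, ← Matrix.mul_assoc R R F, hRR, Matrix.one_mul, hF]
      have e1 : (R * F) ^ (k + 1 + 1) + (F * R) ^ (k + 1 + 1) =
          (R * F + F * R) * ((R * F) ^ (k + 1) + (F * R) ^ (k + 1)) -
            ((R * F) ^ k + (F * R) ^ k) := by
        set a := R * F
        set b := F * R
        have ea : b * a ^ (k + 1) = a ^ k := by
          rw [pow_succ', ← Matrix.mul_assoc, hPP', Matrix.one_mul]
        have eb : a * b ^ (k + 1) = b ^ k := by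
          rw [pow_succ', ← Matrix.mul_assoc, hPP, Matrix.one_mul]
        rw [Matrix.mul_add, Matrix.add_mul, Matrix.add_mul, ea, eb, pow_succ' a (k + 1),
          pow_succ' b (k + 1)]
        abel
      rw [e1, ih.1, ih.2, hS]
      have e3 : Polynomial.Chebyshev.T ℂ ((k + 1 + 1 : ℕ) : ℤ) =
          2 * X * Polynomial.Chebyshev.T ℂ ((k + 1 : ℕ) : ℤ) - Polynomial.Chebyshev.T ℂ (k : ℤ) := by
        have := Polynomial.Chebyshev.T_add_two ℂ (k : ℤ)
        push_cast at this ⊢
        rw [add_assoc, one_add_one_eq_two]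
        exact this
      rw [e3, sub_comp, mul_comp, map_sub, map_mul, smul_sub]
      congr 1
      have e4 : (2 * X : ℂ[X]).comp (1 - 2 * X) = 2 - 4 * X := by
        simp only [mul_comp, X_comp]
        have : (2 : ℂ[X]) = C 2 := (map_ofNat (C : ℂ →+* ℂ[X]) 2).symm
        have : (2 : ℂ[X]).comp (1 - 2 * X) = 2 := by
          rw [this, C_comp]
        rw [this]
        ring
      rw [e4, map_sub, map_mul, aeval_X, Matrix.mul_smul]
      congr 2
      rw [he2, he4, Matrix.smul_mul, Matrix.one_mul]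
  have htrk : ((F * R) ^ k).trace = ((R * F) ^ k).trace := by
    have : (F * R) ^ k = F * (R * F) ^ k * F := by
      clear hrec
      induction k with
      | zero => simp [hF]
      | succ k ih =>
        rw [pow_succ, ih, pow_succ]
        simp only [Matrix.mul_assoc]
        rw [← Matrix.mul_assoc F F R, hF, Matrix.one_mul, Matrix.mul_one]
    rw [this, trace_mul_comm, ← Matrix.mul_assoc, hF, Matrix.one_mul]
  have h2 : 2 * ((R * F) ^ k).trace =
      2 * (aeval Z ((Polynomial.Chebyshev.T ℂ (k : ℤ)).comp (1 - 2 * X))).trace := by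
    have := congrArg trace (hrec k).1
    rw [trace_add, htrk, trace_smul, smul_eq_mul] at this
    rw [← this]
    ring
  have h3 : ((R * F) ^ k).trace =
      (aeval Z ((Polynomial.Chebyshev.T ℂ (k : ℤ)).comp (1 - 2 * X))).trace :=
    mul_left_cancel₀ two_ne_zero h2
  rw [h3, hZ, trPoly W Q V (fun i => (c i : ℂ)) hWV hQ hWQV htr]
  have e7 : ∀ z : ℂ, (1 - 2 * X : ℂ[X]).eval z = 1 - 2 * z := by
    intro z
    rw [eval_sub, eval_one, eval_mul, eval_X]
    congr 2
    have : (2 : ℂ[X]) = C 2 := (map_ofNat (C : ℂ →+* ℂ[X]) 2).symm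
    rw [this, eval_C]
  simp only [eval_comp, e7]
  simp only [mul_zero, sub_zero, Polynomial.Chebyshev.T_eval_one, mul_one, sum_sub_distrib,
    sum_const, card_univ, Fintype.card_fin, nsmul_eq_mul]
  push_cast
  have e9 : ∀ i : Fin m, 1 - 2 * (1 - (c i : ℂ)) = 2 * c i - 1 := fun i => by ring
  simp only [e9]
  ring

end Pool.Agent.H52.CYC.LT
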