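import Pool.Agent.H62.CYC.RectH
import Pool.Graph.R_seed8.W85.BX.Low
import Pool.Graph.R_seed8.W707.TV.Pt

/-! # Project CYC2 (helper62), module PLOW: the lower bound for one `k`

The Laplace method at the saddle point; follows `Pool/Graph/R_seed8/W85/BX/Low.lean` and
`Pool/Graph/R_seed8/W707/TV/Low.lean` with one product and the integrand `HT`. -/

set_option autoImplicit false
set_option maxHeartbeats 4000000

namespace Pool.Agent.H52.CYC.PL

open Filter Finset EvenVol Pool.Agent.H112R4.VL Pool.Agent.W719.BX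
open Pool.Agent.W709.VC (rect path Lf ell pot exp_small path_sub_le)
open Pool.Agent.W707.TV (Rh RH Rh_pos Rh_le RH_ne)
open Pool.Agent.H62.CYC
open Pool.Agent.H11.CYC (HT_diffAt sin_ne_im)
open Pool.Agent.W85.BX (hp_unif hp_diff_lip)
open scoped Real Topology

lemma cos_ne_im {z : ℂ} (h : z.im ≠ 0) : Complex.cos z ≠ 0 := by
  intro h0
  rw [Complex.cos_eq_zero_iff] at h0
  obtain ⟨n, hn⟩ := h0
  apply h
  have h1 := congrArg Complex.im hn
  have h2 : ((2 * (n : ℂ) + 1) * π / 2).im = 0 := by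
    have : ((2 * (n : ℂ) + 1) * π / 2) = (((2 * (n : ℝ) + 1) * π / 2 : ℝ) : ℂ) := by push_cast; ring
    rw [this, Complex.ofReal_im]
  rw [h1, h2]

lemma sin_ne_im' {z : ℂ} (h : z.im ≠ 0) : Complex.sin z ≠ 0 := by
  intro h0
  rw [Complex.sin_eq_zero_iff] at h0
  obtain ⟨n, hn⟩ := h0
  apply h
  have h1 := congrArg Complex.im hn
  have h2 : ((n : ℂ) * π).im = 0 := by
    have : ((n : ℂ) * π) = (((n : ℝ) * π : ℝ) : ℂ) := by push_cast; ring
    rw [this, Complex.ofReal_im]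
  rw [h1, h2]

/-- the integrand has no zero off the real axis -/
lemma HT_ne (p M k : ℕ) {ψ : ℂ} (h : ψ.im ≠ 0) : HT p M k ψ ≠ 0 := by
  unfold HT
  apply div_ne_zero _ (sin_ne_im h)
  have h2 : ((ψ + π) / 2).im ≠ 0 := by
    have : ((ψ + π) / 2).im = ψ.im / 2 := by simp
    rw [this]
    exact div_ne_zero h two_ne_zero
  have h3 : (ψ / 2).im ≠ 0 := by
    have : (ψ / 2).im = ψ.im / 2 := by simp
    rw [this]
    exact div_ne_zero h two_ne_zero
  refine mul_ne_zero (mul_ne_zero (Complex.exp_ne_zero _) (mul_ne_zero ?_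
    (mul_ne_zero two_ne_zero (cos_ne_im h2)))) (sin_ne_im' h3)
  apply RH_ne
  simpa using h

lemma HT_ne' (p M k : ℕ) {b η : ℝ} (hη : 0 < η) : HT p M k (-b + η * Complex.I) ≠ 0 :=
  HT_ne p M k (by simpa using hη.ne')

lemma HT_cont (p M k : ℕ) {η : ℝ} (hη : 0 < η) :
    Continuous (fun x : ℝ => HT p M k (x + η * Complex.I)) := by
  rw [continuous_iff_continuousAt]
  intro x
  have := (HT_diffAt p M k (sin_ne_im (M := M) (ψ := x + η * Complex.I)
    (by simp [hη.ne']))).continuousAt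
  exact ContinuousAt.comp (f := fun x : ℝ => (x + η * Complex.I : ℂ)) this (by fun_prop)

/-- the index of the maximal term -/
noncomputable def kM (α : ℝ) (M : ℕ) : ℕ := ⌊(α + π) * Rh M / (2 * π)⌋₊

lemma kM_close {α : ℝ} (hα : 0 ≤ α) (M : ℕ) :
    |2 * π * (kM α M) - (α + π) * Rh M| ≤ 2 * π := by
  have hp := Real.pi_pos
  have hR := Rh_pos M
  have h0 : 0 ≤ (α + π) * Rh M / (2 * π) := by positivity
  have h1 := Nat.floor_le h0
  have h2 := Nat.lt_floor_add_one ((α + π) * Rh M / (2 * π))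
  unfold kM
  rw [le_div_iff₀ (by positivity)] at h1
  rw [div_lt_iff₀ (by positivity)] at h2
  rw [abs_le]
  constructor <;> nlinarith

lemma kM_lt {α : ℝ} (hα : 0 ≤ α) (hα' : α < π / 2) {M : ℕ} (hM : 2 ≤ M) : kM α M < M := by
  have hp := Real.pi_pos
  have hR := Rh_pos M
  have hM' : (2 : ℝ) ≤ M := by exact_mod_cast hM
  have h0 : 0 ≤ (α + π) * Rh M / (2 * π) := by positivity
  unfold kM
  rw [Nat.floor_lt h0, div_lt_iff₀ (by positivity)]
  have h1 : (α + π) * Rh M ≤ (π / 2 + π) * Rh M :=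
    mul_le_mul_of_nonneg_right (by linarith) hR.le
  unfold Rh at h1 ⊢
  nlinarith

lemma kM_ge {α : ℝ} (hα : 0 < α) : ∀ᶠ M : ℕ in atTop, M + 1 ≤ 2 * kM α M := by
  have hp := Real.pi_pos
  filter_upwards [eventually_ge_atTop ⌈3 * π / α⌉₊] with M hM
  have hM1 : 3 * π / α ≤ M := by
    have := Nat.le_of_ceil_le hM
    exact this
  rw [div_le_iff₀ hα] at hM1
  have h1 := (abs_le.1 (kM_close hα.le M)).1
  have h2 : ((M + 1 : ℕ) : ℝ) ≤ ((2 * kM α M : ℕ) : ℝ) := by
    push_cast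
    unfold Rh at h1
    have h3 : π * ((M : ℝ) + 1) ≤ π * (2 * (kM α M : ℝ)) := by nlinarith
    exact le_of_mul_le_mul_left h3 hp
  exact_mod_cast h2

lemma kM_dist {α₀ : ℝ} (hα : 0 ≤ α₀) (M : ℕ) :
    |2 * π * (kM α₀ M) / Rh M - π - α₀| ≤ 2 * π / Rh M := by
  have hR := Rh_pos M
  have := kM_close hα M
  have e : 2 * π * (kM α₀ M) / Rh M - π - α₀ =
      (2 * π * (kM α₀ M) - (α₀ + π) * Rh M) / Rh M := by
    field_simp
    ring
  rw [e, abs_div, abs_of_pos hR]
  exact div_le_div_of_nonneg_right this hR.le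

/-- the integral along the horizontal line -/
lemma horiz (hB : S_PPBF) (hQ : S_QUAD2) (hL : S_PLAP) {p : ℕ} (hp4 : 4 ≤ p)
    {α₀ b₀ η : ℝ} (hC : Crit2 ((p : ℝ) / 2) α₀ b₀ η) {b₁ : ℝ} (hb₁ : b₁ = π / ((p : ℝ) / 2))
    (hb1 : b₀ < b₁) :
    ∃ δ : ℝ, 0 < δ ∧ ∀ᶠ M : ℕ in atTop,
      ‖HT p M (kM α₀ M) (-b₀ + η * Complex.I)‖ * (δ / Real.sqrt M) ≤
        ‖∫ x in (-b₁)..π, HT p M (kM α₀ M) (x + η * Complex.I)‖ := by
  have hp' := Real.pi_pos
  have hA' : (4 : ℝ) ≤ p := by exact_mod_cast hp4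
  have hη := hC.hη
  have hm2 : 2 ≤ (p : ℝ) / 2 := by linarith
  obtain ⟨c, hc, hquad⟩ := hQ _ _ _ _ hm2 hC
  rw [← hb₁] at hquad
  obtain ⟨cL, hcL, hlim⟩ := hL p α₀ b₀ η (kM α₀) hp4 hC (kM_close hC.hα.le)
  obtain ⟨C, hC0, hpbf⟩ := hB p η η hη
  obtain ⟨P, hP0, hP⟩ := hp_diff_lip (H := η) hη ((p : ℝ) / 2) α₀
  set KN : ℕ → ℝ → ℂ := fun M x => HT p M (kM α₀ M) (x + η * Complex.I) /
    HT p M (kM α₀ M) (-b₀ + η * Complex.I) with hKN
  have hcont : ∀ᶠ M in atTop, Continuous (KN M) := by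
    filter_upwards with M
    exact (HT_cont p M _ hη).div_const _
  have hbound : ∀ᶠ M : ℕ in atTop, ∀ x : ℝ, -b₁ ≤ x → x ≤ π →
      ‖KN M x‖ ≤ Real.exp (2 * C + 2 * P) * Real.exp (-(c / (4 * π)) * M * (x - -b₀) ^ 2) := by
    filter_upwards [eventually_ge_atTop 2] with M hM2 x hx hx'
    have hM0 : 0 < M := by omega
    have hMp : (0 : ℝ) < M := by exact_mod_cast hM0
    have hR := Rh_pos M
    have hMle := Rh_le M
    have hd := kM_lt hC.hα.le hC.hα2 hM2
    have hne := HT_ne' p M (kM α₀ M) (b := b₀) hη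
    have hne2 := HT_ne' p M (kM α₀ M) (b := -x) hη
    have hxx : (-((-x : ℝ) : ℂ) + η * Complex.I) = (x : ℂ) + η * Complex.I := by push_cast; ring
    have q1 := hpbf M (kM α₀ M) hd b₀ η le_rfl le_rfl
    have q2 := hpbf M (kM α₀ M) hd (-x) η le_rfl le_rfl
    have q3 := hquad (-x) (by linarith) (by linarith)
    have hdist := kM_dist hC.hα.le M
    set α : ℝ := 2 * π * (kM α₀ M) / Rh M - π with hα
    have q4 := hP α (-x) b₀ η le_rfl le_rfl
    rw [hKN]
    show ‖HT p M (kM α₀ M) (x + η * Complex.I) /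
      HT p M (kM α₀ M) (-b₀ + η * Complex.I)‖ ≤ _
    rw [norm_div]
    rw [hxx] at hne2 q2
    have hpos : 0 < ‖HT p M (kM α₀ M) (-b₀ + η * Complex.I)‖ := norm_pos_iff.2 hne
    have hpos2 : 0 < ‖HT p M (kM α₀ M) (x + η * Complex.I)‖ := norm_pos_iff.2 hne2
    rw [div_le_iff₀ hpos, ← Real.exp_add, ← Real.log_le_log_iff hpos2 (by positivity),
      Real.log_mul (Real.exp_ne_zero _) hpos.ne', Real.log_exp]
    rw [abs_le] at q1 q2
    have q5 : Rh M / (4 * π) * (hp ((p : ℝ) / 2) α (-x) η - hp ((p : ℝ) / 2) α b₀ η) ≤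
        Rh M / (4 * π) * (-c * (-x - b₀) ^ 2 + 4 * P * (2 * π / Rh M)) := by
      apply mul_le_mul_of_nonneg_left _ (by positivity)
      have : 4 * P * |α - α₀| ≤ 4 * P * (2 * π / Rh M) :=
        mul_le_mul_of_nonneg_left hdist (by positivity)
      linarith
    have q6 : Rh M / (4 * π) * (-c * (-x - b₀) ^ 2 + 4 * P * (2 * π / Rh M)) =
        -(c / (4 * π)) * Rh M * (x - -b₀) ^ 2 + 2 * P := by
      field_simp
      ring
    have q8 : -(c / (4 * π)) * Rh M * (x - -b₀) ^ 2 ≤ -(c / (4 * π)) * M * (x - -b₀) ^ 2 := by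
      have h1 : (c / (4 * π)) * (M : ℝ) ≤ (c / (4 * π)) * Rh M :=
        mul_le_mul_of_nonneg_left hMle (by positivity)
      nlinarith [sq_nonneg (x - -b₀), mul_le_mul_of_nonneg_right h1 (sq_nonneg (x - -b₀))]
    have q7 : Rh M / (4 * π) * (hp ((p : ℝ) / 2) α (-x) η - hp ((p : ℝ) / 2) α b₀ η) =
        Rh M / (4 * π) * (hp ((p : ℝ) / 2) α (-x) η - 8 * GapVol.lob (α / 2)) -
        Rh M / (4 * π) * (hp ((p : ℝ) / 2) α b₀ η - 8 * GapVol.lob (α / 2)) := by
      ring
    rw [q6, q7] at q5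
    linarith [q1.1, q1.2, q2.1, q2.2]
  have hpt : ∀ s : ℝ, Tendsto (fun M : ℕ => KN M (-b₀ + s / Real.sqrt M)) atTop
      (𝓝 (Complex.exp (-cL * s ^ 2))) := by
    intro s
    have := hlim s
    refine this.congr (fun M => ?_)
    show _ = HT p M (kM α₀ M) (((-b₀ + s / Real.sqrt M : ℝ) : ℂ) + η * Complex.I) /
      HT p M (kM α₀ M) (-b₀ + η * Complex.I)
    push_cast
    rfl
  obtain ⟨δ, hδ, hev⟩ := Pool.Agent.W973.VcDc.dc KN cL (-b₀) (-b₁) π (Real.exp (2 * C + 2 * P))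
    (c / (4 * π)) hcL
    (by linarith) (by linarith [hC.hb]) (by positivity) hcont hbound hpt
  refine ⟨δ, hδ, ?_⟩
  filter_upwards [hev] with M hM
  have hne := HT_ne' p M (kM α₀ M) (b := b₀) hη
  have hM' : δ / Real.sqrt M ≤ ‖∫ x in (-b₁)..π, HT p M (kM α₀ M) (x + η * Complex.I) /
    HT p M (kM α₀ M) (-b₀ + η * Complex.I)‖ := hM
  rw [intervalIntegral.integral_div, norm_div] at hM'
  have hpos : 0 < ‖HT p M (kM α₀ M) (-b₀ + η * Complex.I)‖ := norm_pos_iff.2 hne
  rw [le_div_iff₀ hpos] at hM'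
  linarith

end Pool.Agent.H52.CYC.PL

namespace Pool.Agent.H52.CYC

open Filter Finset EvenVol Pool.Agent.H112R4.VL Pool.Agent.W719.BX
open Pool.Agent.W709.VC (rect path Lf ell pot exp_small path_sub_le path_mul lob6_pos)
open Pool.Agent.W707.TV (Rh RH Rh_pos Rh_le RH_ne)
open Pool.Agent.H62.CYC
open Pool.Agent.W85.BX (hp_unif hp_diff_lip)
open Pool.Agent.H52.CYC.PL
open scoped Real Topology

/-- **the lower bound for one `k`** -/
theorem plow' (hV : S_PVERT) (hB : S_PPBF) (hW : S_PLOGW) (hBN : Pool.Agent.W719.BX.S_BND)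
    (hQ : Pool.Agent.W719.BX.S_QUAD2) (hL : S_PLAP) : S_PLOW := by
  intro p α₀ b₀ η hp4 hC ε hε
  have hp' := Real.pi_pos
  have hA' : (4 : ℝ) ≤ p := by exact_mod_cast hp4
  set m : ℝ := (p : ℝ) / 2 with hm
  have hm2 : 2 ≤ m := by rw [hm]; linarith
  have hm0 : 0 < m := by linarith
  have hAm : (p : ℝ) = 2 * m := by rw [hm]; ring
  set V := hp m α₀ b₀ η with hVd
  set Λ := GapVol.lob (π / 6) with hΛ
  have hΛ0 : 0 < Λ := lob6_pos
  obtain ⟨hV10, hbnd⟩ := hBN m α₀ b₀ η hm2 hC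
  rw [← hVd, ← hΛ] at hV10
  have hη := hC.hη
  have hα0 := hC.hα
  have hα2 := hC.hα2
  have hαπ : α₀ < π := by linarith
  have hpm : 0 < π / m := by positivity
  have hpm2 : π / m ≤ π / 2 := div_le_div_of_nonneg_left hp'.le (by norm_num) hm2
  set b₁ := π / m with hb₁
  have hb1a : b₀ < b₁ := by
    rw [hb₁, lt_div_iff₀ hm0]
    linarith [hC.hbm]
  have hb1b : b₁ ≤ π / 2 := hpm2
  have hb10 : 0 < b₁ := lt_trans hC.hb hb1a
  obtain ⟨c, hc, hquad⟩ := hQ m α₀ b₀ η hm2 hC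
  rw [← hb₁, ← hVd] at hquad
  obtain ⟨-, hb2i, hb3i⟩ := hbnd α₀ hα0.le hαπ.le
  set δ : ℝ := min (c * (b₁ - b₀) ^ 2) Λ with hδd
  have hδ0 : 0 < δ := by
    apply lt_min _ hΛ0
    have : 0 < b₁ - b₀ := by linarith
    positivity
  have hδ1 : δ ≤ c * (b₁ - b₀) ^ 2 := min_le_left _ _
  have hδ2 : δ ≤ Λ := min_le_right _ _
  set h : ℝ := min η (min (Λ / (2 * π * m)) (δ / (8 * π * m))) with hhd
  have hh : 0 < h := lt_min hη (lt_min (by positivity) (by positivity))
  have hhη : h ≤ η := min_le_left _ _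
  have hh1 : 2 * π * m * h ≤ Λ := by
    have h1 : h ≤ Λ / (2 * π * m) := le_trans (min_le_right _ _) (min_le_left _ _)
    rw [le_div_iff₀ (by positivity)] at h1
    linarith
  have hh2 : 8 * π * m * h ≤ δ := by
    have h1 : h ≤ δ / (8 * π * m) := le_trans (min_le_right _ _) (min_le_right _ _)
    rw [le_div_iff₀ (by positivity)] at h1
    linarith
  -- off-critical estimates at `α₀`
  have hq1 : hp m α₀ b₁ η ≤ V - δ := by
    have := hquad b₁ (by linarith) le_rfl
    linarith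
  have w2 : ∀ y, h ≤ y → y ≤ η → hp m α₀ b₁ y ≤ V - δ := by
    intro y hy hy'
    have := hb2i y (by linarith) hy'
    linarith
  have w1 : ∀ b, b₁ ≤ b → b ≤ π → hp m α₀ b h ≤ V - δ / 2 := by
    intro b hb hb'
    have h1 := hb3i h b hh hhη hb hb'
    linarith
  -- constants
  set ε' : ℝ := min (ε / 5) (δ / (200 * π)) with hε'
  have hε0 : 0 < ε' := lt_min (by positivity) (by positivity)
  have hε1 : ε' ≤ ε / 5 := min_le_left _ _
  have hε2 : ε' * (200 * π) ≤ δ := by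
    have h1 := min_le_right (ε / 5) (δ / (200 * π))
    rw [← hε', le_div_iff₀ (by positivity)] at h1
    exact h1
  obtain ⟨ρ, hρ0, hρ⟩ := hp_unif (H := η) hh m α₀ (ρ := min (δ / 4) (4 * π * ε'))
    (lt_min (by positivity) (by positivity))
  obtain ⟨δ₂, hδ₂, hhor⟩ := horiz hB hQ hL hp4 hC rfl hb1a
  obtain ⟨C, hC0, hpb⟩ := hB p h η hh
  have e1 := hW ε' hε0
  set K : ℝ := 2 * Real.cosh h * h + 1 * (2 * π) + 1 * η + 2 * Real.cosh η * η with hK
  have hch : 0 < Real.cosh h := Real.cosh_pos h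
  have hcη : 0 < Real.cosh η := Real.cosh_pos η
  have hK0 : 0 < K := by
    rw [hK]
    positivity
  have e3 := exp_small (c := δ₂ / (2 * K)) (ε := ε') (by positivity) hε0
  have e4 := exp_small (c := δ₂) (ε := ε') hδ₂ hε0
  have e5 : ∀ᶠ M : ℕ in atTop, 2 * π / M ≤ ρ := by
    have : Tendsto (fun N : ℕ => 2 * π / (N : ℝ)) atTop (𝓝 0) :=
      tendsto_const_div_atTop_nhds_zero_nat _
    exact (this.eventually_lt_const hρ0).mono (fun N hN => hN.le)
  have e7 : ∀ᶠ M : ℕ in atTop, C ≤ ε' * M := by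
    filter_upwards [eventually_ge_atTop ⌈C / ε'⌉₊] with M hM
    have := Nat.le_of_ceil_le hM
    rw [div_le_iff₀ hε0] at this
    linarith
  filter_upwards [e1, e3, e4, e5, hhor, kM_ge hα0, e7, eventually_ge_atTop 2] with
    M h1 h3 h4 h5 h6 h7 h8 hM2
  have hM0 : 0 < M := by omega
  have hMp : (0 : ℝ) < M := by exact_mod_cast hM0
  have hR := Rh_pos M
  have hMle := Rh_le M
  have hd := kM_lt hα0.le hα2 hM2
  have hdist' := kM_dist hα0.le M
  set d := kM α₀ M with hdd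
  set α : ℝ := 2 * π * d / Rh M - π with hα
  have hdist : |α - α₀| ≤ ρ := by
    refine le_trans hdist' (le_trans ?_ h5)
    exact div_le_div_of_nonneg_left (by positivity) hMp hMle
  have hclose := hρ α hdist
  refine ⟨d, hd, h7, ?_⟩
  intro h₀ hh₀
  have hb1π : |b₁| ≤ π := by rw [abs_of_pos hb10]; linarith
  rw [rect_path p M d hh₀ hh hhη hb1π, norm_mul, norm_neg, Complex.norm_ofNat]
  set k : ℝ := WT M d with hk
  have hk0 : 0 < k := WT_pos hd h7
  have hnorm : ∀ z : ℂ, ‖((k : ℝ) : ℂ) * HT p M d z‖ = k * ‖HT p M d z‖ := by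
    intro z
    rw [norm_mul, Complex.norm_real, Real.norm_eq_abs, abs_of_nonneg hk0.le]
  -- the pointwise bounds
  have hpt : ∀ b y : ℝ, h ≤ y → y ≤ η →
      Real.exp (Rh M / (4 * π) * hp m α b y - 2 * ε' * M) ≤
        k * ‖HT p M d (-b + y * Complex.I)‖ ∧
      k * ‖HT p M d (-b + y * Complex.I)‖ ≤
        Real.exp (Rh M / (4 * π) * hp m α b y + 2 * ε' * M) := by
    intro b y hy hy'
    have g1 := hpb M d hd b y hy hy'
    have g3 := h1 d hd h7
    rw [← hk, ← hα] at g3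
    rw [← hm, ← hα] at g1
    have g4 : 0 < ‖HT p M d (-b + y * Complex.I)‖ :=
      norm_pos_iff.2 (HT_ne' p M d (b := b) (lt_of_lt_of_le hh hy))
    have g2 : 0 < k * ‖HT p M d (-b + y * Complex.I)‖ := mul_pos hk0 g4
    rw [← Real.le_log_iff_exp_le g2, ← Real.log_le_iff_le_exp g2,
      Real.log_mul hk0.ne' g4.ne']
    rw [abs_le] at g1 g3
    have e : Rh M / (4 * π) * (hp m α b y - 8 * GapVol.lob (α / 2)) =
      Rh M / (4 * π) * hp m α b y - Rh M / (4 * π) * (8 * GapVol.lob (α / 2)) := by ring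
    rw [e] at g1
    constructor <;> linarith [g1.1, g1.2, g3.1, g3.2]
  set E := Real.exp (Rh M / (4 * π) * (V - δ / 4) + 2 * ε' * M) with hE
  have hE0 : 0 < E := Real.exp_pos _
  have hpN : 0 < Rh M / (4 * π) := by positivity
  have hVδ : 0 ≤ V - δ / 4 := by linarith
  have hVN : 0 ≤ Rh M / (4 * π) * (V - δ / 4) := by positivity
  have hεM : 0 ≤ ε' * M := by positivity
  have hE1 : 1 ≤ E := by
    rw [hE, ← Real.exp_zero]
    apply Real.exp_le_exp.2
    linarith
  have key := path_sub_le (f := fun z => ((k : ℝ) : ℂ) * HT p M d z) hh.le hhη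
    (b := b₁) (by linarith) (B1 := 2 * Real.cosh h * E) (B2 := E) (B3 := E)
    (B5 := 2 * Real.cosh η * E) ?_ ?_ ?_ ?_
  · -- conclusion
    have hint : ‖∫ x in (-b₁)..π, ((k : ℝ) : ℂ) * HT p M d (x + η * Complex.I)‖ =
        k * ‖∫ x in (-b₁)..π, HT p M d (x + η * Complex.I)‖ := by
      rw [intervalIntegral.integral_const_mul, norm_mul, Complex.norm_real, Real.norm_eq_abs,
        abs_of_nonneg hk0.le]
    have hpth : ‖path (fun z => ((k : ℝ) : ℂ) * HT p M d z) h η b₁‖ =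
        k * ‖path (HT p M d) h η b₁‖ := by
      rw [path_mul, norm_mul, Complex.norm_real, Real.norm_eq_abs, abs_of_nonneg hk0.le]
    have key' : k * ‖∫ x in (-b₁)..π, HT p M d (x + η * Complex.I)‖ ≤
        k * ‖path (HT p M d) h η b₁‖ +
          (2 * Real.cosh h * E * h + E * (π - b₁) + E * (η - h) + 2 * Real.cosh η * E * η) := by
      rw [← hint, ← hpth]
      exact key
    have hrest : 2 * Real.cosh h * E * h + E * (π - b₁) + E * (η - h) + 2 * Real.cosh η * E * η ≤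
        E * K := by
      have g1 : E * (π - b₁) ≤ E * (2 * π) := mul_le_mul_of_nonneg_left (by linarith) hE0.le
      have g2 : E * (η - h) ≤ E * η := mul_le_mul_of_nonneg_left (by linarith) hE0.le
      have g3 : E * K = 2 * Real.cosh h * E * h + E * (2 * π) + E * η + 2 * Real.cosh η * E * η := by
        rw [hK]
        ring
      rw [g3]
      linarith
    have hmain := (hpt b₀ η hhη le_rfl).1
    have hpot : V - 4 * π * ε' ≤ hp m α b₀ η := by
      have := (abs_le.1 (hclose b₀ η hhη le_rfl)).1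
      have := min_le_right (δ / 4) (4 * π * ε')
      linarith
    have hR2 : Rh M ≤ 2 * M := by
      unfold Rh
      have : (1 : ℝ) ≤ M := by exact_mod_cast hM0
      linarith
    have hmain2 : Real.exp (Rh M / (4 * π) * V - 4 * ε' * M) ≤
        k * ‖HT p M d (-b₀ + η * Complex.I)‖ := by
      refine le_trans (Real.exp_le_exp.2 ?_) hmain
      have : Rh M / (4 * π) * (V - 4 * π * ε') ≤ Rh M / (4 * π) * hp m α b₀ η :=
        mul_le_mul_of_nonneg_left hpot hpN.le
      have e : Rh M / (4 * π) * (V - 4 * π * ε') = Rh M / (4 * π) * V - ε' * Rh M := by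
        field_simp
      have e7 : ε' * Rh M ≤ ε' * (2 * M) := mul_le_mul_of_nonneg_left hR2 hε0.le
      linarith
    have hsq : 0 < δ₂ / Real.sqrt M := by
      have : 0 < Real.sqrt M := Real.sqrt_pos.2 hMp
      positivity
    set G := Real.exp (Rh M / (4 * π) * V - 4 * ε' * M) with hG'
    have hG0 : 0 < G := Real.exp_pos _
    have hlow : G * (δ₂ / Real.sqrt M) ≤
        k * ‖∫ x in (-b₁)..π, HT p M d (x + η * Complex.I)‖ := by
      calc G * (δ₂ / Real.sqrt M) ≤ (k * ‖HT p M d (-b₀ + η * Complex.I)‖) * (δ₂ / Real.sqrt M) :=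
            mul_le_mul_of_nonneg_right hmain2 hsq.le
        _ = k * (‖HT p M d (-b₀ + η * Complex.I)‖ * (δ₂ / Real.sqrt M)) := by ring
        _ ≤ _ := mul_le_mul_of_nonneg_left h6 hk0.le
    -- E K ≤ G δ₂/(2 √M)
    have hEG : E * K ≤ G * (δ₂ / Real.sqrt M) / 2 := by
      have hexp : E ≤ G * Real.exp (-(ε' * M)) := by
        rw [hE, hG', ← Real.exp_add]
        apply Real.exp_le_exp.2
        have : Rh M / (4 * π) * (V - δ / 4) = Rh M / (4 * π) * V - δ / (16 * π) * Rh M := by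
          field_simp
          ring
        rw [this]
        have h7 : 7 * ε' ≤ δ / (16 * π) := by
          rw [le_div_iff₀ (by positivity)]
          nlinarith
        have h8 : 7 * ε' * M ≤ δ / (16 * π) * Rh M :=
          mul_le_mul h7 hMle hMp.le (by positivity)
        linarith
      have h9 : Real.exp (-(ε' * M)) * K ≤ δ₂ / Real.sqrt M / 2 := by
        calc Real.exp (-(ε' * M)) * K ≤ (δ₂ / (2 * K) / Real.sqrt M) * K :=
              mul_le_mul_of_nonneg_right h3 hK0.le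
          _ = δ₂ / Real.sqrt M / 2 := by
            field_simp
      calc E * K ≤ (G * Real.exp (-(ε' * M))) * K := mul_le_mul_of_nonneg_right hexp hK0.le
        _ = G * (Real.exp (-(ε' * M)) * K) := by ring
        _ ≤ G * (δ₂ / Real.sqrt M / 2) := mul_le_mul_of_nonneg_left h9 hG0.le
        _ = _ := by ring
    have hfin : G * (δ₂ / Real.sqrt M) / 2 ≤ k * ‖path (HT p M d) h η b₁‖ := by
      linarith
    have h10 : Real.exp (Rh M / (4 * π) * V - ε * M) ≤ G * Real.exp (-(ε' * M)) := by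
      rw [hG', ← Real.exp_add]
      apply Real.exp_le_exp.2
      have : 5 * ε' * M ≤ ε * M := mul_le_mul_of_nonneg_right (by linarith) hMp.le
      linarith
    calc Real.exp (Rh M / (4 * π) * V - ε * M) ≤ G * Real.exp (-(ε' * M)) := h10
      _ ≤ G * (δ₂ / Real.sqrt M) := mul_le_mul_of_nonneg_left h4 hG0.le
      _ = 2 * (G * (δ₂ / Real.sqrt M) / 2) := by ring
      _ ≤ 2 * (k * ‖path (HT p M d) h η b₁‖) := by linarith
      _ = k * (2 * ‖path (HT p M d) h η b₁‖) := by ring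
  · intro y hy hy'
    rw [hnorm]
    refine le_trans (hV p M d hd h7 y hy).2 ?_
    have hs1 : 2 * Real.cosh y ≤ 2 * Real.cosh h := by
      have : Real.cosh y ≤ Real.cosh h := by
        rw [Real.cosh_le_cosh, abs_of_nonneg hy, abs_of_nonneg hh.le]
        exact hy'
      linarith
    apply mul_le_mul hs1 _ (Real.exp_pos _).le (by positivity)
    apply Real.exp_le_exp.2
    have hmy : m * y ≤ m * h := mul_le_mul_of_nonneg_left hy' hm0.le
    have h7' : (p : ℝ) * Rh M * y / 4 ≤ Rh M / (4 * π) * (V - δ / 4) := by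
      have e : (p : ℝ) * Rh M * y / 4 = Rh M / (4 * π) * (2 * π * (m * y)) := by
        rw [hAm]
        field_simp
      rw [e]
      apply mul_le_mul_of_nonneg_left _ hpN.le
      nlinarith
    linarith
  · intro x hx hx'
    rw [hnorm]
    refine le_trans (hpt x h le_rfl hhη).2 ?_
    apply Real.exp_le_exp.2
    have h7' : hp m α x h ≤ V - δ / 4 := by
      have := (abs_le.1 (hclose x h le_rfl hhη)).2
      have := w1 x hx hx'
      have := min_le_left (δ / 4) (4 * π * ε')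
      linarith
    have := mul_le_mul_of_nonneg_left h7' hpN.le
    linarith
  · intro y hy hy'
    rw [hnorm]
    refine le_trans (hpt b₁ y hy hy').2 ?_
    apply Real.exp_le_exp.2
    have h7' : hp m α b₁ y ≤ V - δ / 4 := by
      have := (abs_le.1 (hclose b₁ y hy hy')).2
      have := w2 y hy hy'
      have := min_le_left (δ / 4) (4 * π * ε')
      linarith
    have := mul_le_mul_of_nonneg_left h7' hpN.le
    linarith
  · intro y hy hy'
    rw [hnorm]
    refine le_trans (hV p M d hd h7 y hy).1 ?_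
    have hs1 : Real.cosh y ≤ Real.cosh η := by
      rw [Real.cosh_le_cosh, abs_of_nonneg hy, abs_of_nonneg hη.le]
      exact hy'
    have : 2 * Real.cosh η * 1 ≤ 2 * Real.cosh η * E :=
      mul_le_mul_of_nonneg_left hE1 (by positivity)
    linarith

/-- the lower bound, with the hypothesis on the contour (a theorem of helper11) -/
theorem plow (_hP : S_PPATH) (hV : S_PVERT) (hB : S_PPBF) (hW : S_PLOGW)
    (hBN : Pool.Agent.W719.BX.S_BND) (hQ : Pool.Agent.W719.BX.S_QUAD2) (hL : S_PLAP) : S_PLOW :=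
  plow' hV hB hW hBN hQ hL

end Pool.Agent.H52.CYC
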