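import Pool.Agent.H52.CYC.PLow
import Pool.Agent.H62.CYC.DefsT
import Pool.Graph.R_pool_sql_team_seeded_c8625f6e.K4H85.AX.Bnd3
import Pool.Graph.R_pool_sql_team_seeded_c8625f6e.K4H85.AX.Quad3

/-! # Project CYC (helper62), module PLOW3: the lower bound for one `k`, `p = 3`

As `PLow.lean`, with the changes of `K4H85/AX/Low3.lean` to `W85/BX/Low.lean`. -/

set_option autoImplicit false
set_option maxHeartbeats 4000000

namespace Pool.Agent.H52.CYC

open Filter Finset EvenVol Pool.Agent.H112R4.VL Pool.Agent.W719.BX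
open Pool.Agent.W709.VC (rect path Lf ell pot exp_small path_sub_le path_mul lob6_pos)
open Pool.Agent.W707.TV (Rh RH Rh_pos Rh_le RH_ne)
open Pool.Agent.H62.CYC
open Pool.Agent.W85.BX (hp_unif hp_diff_lip)
open Pool.Agent.K4H85.AX (C3 quad3 bnd3 xv xv_gt)
open Pool.Agent.H52.CYC.PL
open scoped Real Topology

/-- the integral along the horizontal line -/
lemma horiz3 (hB : S_PPBF) (hL : S_PLAP3) {α₀ b₀ η : ℝ} (hC3 : C3 α₀ b₀ η) {p : ℕ} (hp3 : p = 3)
    {b₁ : ℝ} (hb₁ : b₁ = xv) :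
    ∃ δ : ℝ, 0 < δ ∧ ∀ᶠ M : ℕ in atTop,
      ‖HT p M (kM α₀ M) (-b₀ + η * Complex.I)‖ * (δ / Real.sqrt M) ≤
        ‖∫ x in (-b₁)..π, HT p M (kM α₀ M) (x + η * Complex.I)‖ := by
  have hp' := Real.pi_pos
  have hC : Crit2 ((p : ℝ) / 2) α₀ b₀ η := by
    rw [hp3]
    exact_mod_cast hC3.cr
  have hη := hC.hη
  have hb1 : b₀ < b₁ := by
    rw [hb₁]
    exact hC3.hi.trans xv_gt
  obtain ⟨c, hc, hquad⟩ := quad3 hC3
  have hA3 : (3 / 2 : ℝ) = (p : ℝ) / 2 := by
    rw [hp3]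
    norm_num
  rw [← hb₁, hA3] at hquad
  obtain ⟨cL, hcL, hlim⟩ := hL p α₀ b₀ η (kM α₀) hC3.hi hC (kM_close hC.hα.le)
  obtain ⟨C, hC0, hpbf⟩ := hB p η η hη
  obtain ⟨P, hP0, hP⟩ := hp_diff_lip (H := η) hη ((p : ℝ) / 2) α₀
  set KN : ℕ → ℝ → ℂ := fun M x => HT p M (kM α₀ M) (x + η * Complex.I) /
    HT p M (kM α₀ M) (-b₀ + η * Complex.I) with hKN
  have hcont : ∀ᶠ M in atTop, Continuous (KN M) := by
    filter_upwards with M
    exact (HT_cont p M _ hη).div_const _
  have hbound : ∀ᶠ M : ℕ in atTop, ∀ x : ℝ, -b₁ ≤ x → x ≤ π →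
      ‖KN M x‖ ≤ Real.exp (2 * C + 2 * P) * Real.exp (-(c / (4 * π)) * M * (x - -b₀) ^ 2) := by
    filter_upwards [eventually_ge_atTop 2] with M hM2 x hx hx'
    have hM0 : 0 < M := by omega
    have hMp : (0 : ℝ) < M := by exact_mod_cast hM0
    have hR := Rh_pos M
    have hMle := Rh_le M
    have hd := kM_lt hC.hα.le hC.hα2 hM2
    have hne := HT_ne' p M (kM α₀ M) (b := b₀) hη
    have hne2 := HT_ne' p M (kM α₀ M) (b := -x) hη
    have hxx : (-((-x : ℝ) : ℂ) + η * Complex.I) = (x : ℂ) + η * Complex.I := by push_cast; ring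
    have q1 := hpbf M (kM α₀ M) hd b₀ η le_rfl le_rfl
    have q2 := hpbf M (kM α₀ M) hd (-x) η le_rfl le_rfl
    have q3 := hquad (-x) (by linarith) (by linarith)
    have hdist := kM_dist hC.hα.le M
    set α : ℝ := 2 * π * (kM α₀ M) / Rh M - π with hα
    have q4 := hP α (-x) b₀ η le_rfl le_rfl
    rw [hKN]
    show ‖HT p M (kM α₀ M) (x + η * Complex.I) /
      HT p M (kM α₀ M) (-b₀ + η * Complex.I)‖ ≤ _
    rw [norm_div]
    rw [hxx] at hne2 q2
    have hpos : 0 < ‖HT p M (kM α₀ M) (-b₀ + η * Complex.I)‖ := norm_pos_iff.2 hne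
    have hpos2 : 0 < ‖HT p M (kM α₀ M) (x + η * Complex.I)‖ := norm_pos_iff.2 hne2
    rw [div_le_iff₀ hpos, ← Real.exp_add, ← Real.log_le_log_iff hpos2 (by positivity),
      Real.log_mul (Real.exp_ne_zero _) hpos.ne', Real.log_exp]
    rw [abs_le] at q1 q2
    have q5 : Rh M / (4 * π) * (hp ((p : ℝ) / 2) α (-x) η - hp ((p : ℝ) / 2) α b₀ η) ≤
        Rh M / (4 * π) * (-c * (-x - b₀) ^ 2 + 4 * P * (2 * π / Rh M)) := by
      apply mul_le_mul_of_nonneg_left _ (by positivity)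
      have : 4 * P * |α - α₀| ≤ 4 * P * (2 * π / Rh M) :=
        mul_le_mul_of_nonneg_left hdist (by positivity)
      linarith
    have q6 : Rh M / (4 * π) * (-c * (-x - b₀) ^ 2 + 4 * P * (2 * π / Rh M)) =
        -(c / (4 * π)) * Rh M * (x - -b₀) ^ 2 + 2 * P := by
      field_simp
      ring
    have q8 : -(c / (4 * π)) * Rh M * (x - -b₀) ^ 2 ≤ -(c / (4 * π)) * M * (x - -b₀) ^ 2 := by
      have h1 : (c / (4 * π)) * (M : ℝ) ≤ (c / (4 * π)) * Rh M :=
        mul_le_mul_of_nonneg_left hMle (by positivity)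
      nlinarith [sq_nonneg (x - -b₀), mul_le_mul_of_nonneg_right h1 (sq_nonneg (x - -b₀))]
    have q7 : Rh M / (4 * π) * (hp ((p : ℝ) / 2) α (-x) η - hp ((p : ℝ) / 2) α b₀ η) =
        Rh M / (4 * π) * (hp ((p : ℝ) / 2) α (-x) η - 8 * GapVol.lob (α / 2)) -
        Rh M / (4 * π) * (hp ((p : ℝ) / 2) α b₀ η - 8 * GapVol.lob (α / 2)) := by
      ring
    rw [q6, q7] at q5
    linarith [q1.1, q1.2, q2.1, q2.2]
  have hpt : ∀ s : ℝ, Tendsto (fun M : ℕ => KN M (-b₀ + s / Real.sqrt M)) atTop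
      (𝓝 (Complex.exp (-cL * s ^ 2))) := by
    intro s
    have := hlim s
    refine this.congr (fun M => ?_)
    show _ = HT p M (kM α₀ M) (((-b₀ + s / Real.sqrt M : ℝ) : ℂ) + η * Complex.I) /
      HT p M (kM α₀ M) (-b₀ + η * Complex.I)
    push_cast
    rfl
  obtain ⟨δ, hδ, hev⟩ := Pool.Agent.W973.VcDc.dc KN cL (-b₀) (-b₁) π (Real.exp (2 * C + 2 * P))
    (c / (4 * π)) hcL
    (by linarith) (by linarith [hC.hb]) (by positivity) hcont hbound hpt
  refine ⟨δ, hδ, ?_⟩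
  filter_upwards [hev] with M hM
  have hne := HT_ne' p M (kM α₀ M) (b := b₀) hη
  have hM' : δ / Real.sqrt M ≤ ‖∫ x in (-b₁)..π, HT p M (kM α₀ M) (x + η * Complex.I) /
    HT p M (kM α₀ M) (-b₀ + η * Complex.I)‖ := hM
  rw [intervalIntegral.integral_div, norm_div] at hM'
  have hpos : 0 < ‖HT p M (kM α₀ M) (-b₀ + η * Complex.I)‖ := norm_pos_iff.2 hne
  rw [le_div_iff₀ hpos] at hM'
  linarith

theorem plow3' (hV : S_PVERT) (hB : S_PPBF) (hW : S_PLOGW) (hL : S_PLAP3)
    {α₀ b₀ η : ℝ} (hC3 : C3 α₀ b₀ η) {p : ℕ} (hp3 : p = 3) :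
    ∀ ε : ℝ, 0 < ε → ∀ᶠ M : ℕ in atTop, ∃ k : ℕ, k < M ∧ M + 1 ≤ 2 * k ∧ ∀ h : ℝ, 0 < h →
    Real.exp (Rh M / (4 * π) * hp (3 / 2) α₀ b₀ η - ε * M) ≤
      WT M k * ‖rect (HT p M k) (-π) π (-h) h‖ := by
  intro ε hε
  have hp' := Real.pi_pos
  have hA3 : (3 / 2 : ℝ) = (p : ℝ) / 2 := by
    rw [hp3]
    norm_num
  have hC : Crit2 ((p : ℝ) / 2) α₀ b₀ η := by
    rw [← hA3]
    exact hC3.cr
  rw [hA3]
  set m : ℝ := (p : ℝ) / 2 with hm
  have hm0 : 0 < m := by rw [← hA3]; norm_num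
  have hAm : (p : ℝ) = 2 * m := by rw [hm]; ring
  set V := hp m α₀ b₀ η with hVd
  set Λ := GapVol.lob (π / 6) with hΛ
  have hΛ0 : 0 < Λ := lob6_pos
  have hV10 := hC3.val
  have hbnd := fun (α : ℝ) (h0 : 0 ≤ α) (h1 : α ≤ π) => bnd3 hC3 h0 h1
  rw [hA3, ← hVd, ← hΛ] at hV10
  have hη := hC.hη
  have hα0 := hC.hα
  have hα2 := hC.hα2
  have hαπ : α₀ < π := by linarith
  obtain ⟨b₁, hb₁⟩ : ∃ b₁ : ℝ, b₁ = xv := ⟨_, rfl⟩
  have hb1a : b₀ < b₁ := by
    rw [hb₁]
    exact hC3.hi.trans xv_gt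
  have hb1b : b₁ ≤ π := by rw [hb₁]; exact Real.arccos_le_pi _
  have hb10 : 0 < b₁ := lt_trans hC.hb hb1a
  obtain ⟨c, hc, hquad⟩ := quad3 hC3
  rw [← hb₁, hA3, ← hVd] at hquad
  obtain ⟨-, hb23⟩ := hbnd α₀ hα0.le hαπ.le
  rw [← hb₁, hA3, ← hVd] at hb23
  set δ : ℝ := min (c * (b₁ - b₀) ^ 2) (min (1 / 100) Λ) with hδd
  have hδ0 : 0 < δ := by
    apply lt_min _ (lt_min (by norm_num) hΛ0)
    have : 0 < b₁ - b₀ := by linarith
    positivity
  have hδ1 : δ ≤ c * (b₁ - b₀) ^ 2 := min_le_left _ _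
  have hδ2 : δ ≤ Λ := (min_le_right _ _).trans (min_le_right _ _)
  have hδ3 : δ ≤ 1 / 100 := (min_le_right _ _).trans (min_le_left _ _)
  set h : ℝ := min (min η (1 / 100)) (min (Λ / (2 * π * m)) (δ / (8 * π * m))) with hhd
  have hh : 0 < h := lt_min (lt_min hη (by norm_num)) (lt_min (by positivity) (by positivity))
  have hhη : h ≤ η := (min_le_left _ _).trans (min_le_left _ _)
  have hh100 : h ≤ 1 / 100 := (min_le_left _ _).trans (min_le_right _ _)
  obtain ⟨hb2i, hb3i⟩ := hb23 h hh hh100 hhη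
  have hh1 : 2 * π * m * h ≤ Λ := by
    have h1 : h ≤ Λ / (2 * π * m) := le_trans (min_le_right _ _) (min_le_left _ _)
    rw [le_div_iff₀ (by positivity)] at h1
    linarith
  have hh2 : 8 * π * m * h ≤ δ := by
    have h1 : h ≤ δ / (8 * π * m) := le_trans (min_le_right _ _) (min_le_right _ _)
    rw [le_div_iff₀ (by positivity)] at h1
    linarith
  -- off-critical estimates at `α₀`
  have hq1 : hp m α₀ b₁ η ≤ V - δ := by
    have := hquad b₁ (by linarith) le_rfl
    linarith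
  have w2 : ∀ y, h ≤ y → y ≤ η → hp m α₀ b₁ y ≤ V - δ := by
    intro y hy hy'
    have h1 := hb2i y hy hy'
    have h2 := max_le (show V - 1 / 100 ≤ V - δ by linarith) hq1
    linarith
  have w1 : ∀ b, b₁ ≤ b → b ≤ π → hp m α₀ b h ≤ V - δ / 2 := by
    intro b hb hb'
    have h1 := hb3i b hb hb'
    have h2 : 3 * π * h = 2 * π * m * h := by rw [← hA3]; ring
    linarith
  -- constants
  set ε' : ℝ := min (ε / 5) (δ / (200 * π)) with hε'
  have hε0 : 0 < ε' := lt_min (by positivity) (by positivity)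
  have hε1 : ε' ≤ ε / 5 := min_le_left _ _
  have hε2 : ε' * (200 * π) ≤ δ := by
    have h1 := min_le_right (ε / 5) (δ / (200 * π))
    rw [← hε', le_div_iff₀ (by positivity)] at h1
    exact h1
  obtain ⟨ρ, hρ0, hρ⟩ := hp_unif (H := η) hh m α₀ (ρ := min (δ / 4) (4 * π * ε'))
    (lt_min (by positivity) (by positivity))
  obtain ⟨δ₂, hδ₂, hhor⟩ := horiz3 hB hL hC3 hp3 hb₁
  obtain ⟨C, hC0, hpb⟩ := hB p h η hh
  have e1 := hW ε' hε0
  set K : ℝ := 2 * Real.cosh h * h + 1 * (2 * π) + 1 * η + 2 * Real.cosh η * η with hK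
  have hch : 0 < Real.cosh h := Real.cosh_pos h
  have hcη : 0 < Real.cosh η := Real.cosh_pos η
  have hK0 : 0 < K := by
    rw [hK]
    positivity
  have e3 := exp_small (c := δ₂ / (2 * K)) (ε := ε') (by positivity) hε0
  have e4 := exp_small (c := δ₂) (ε := ε') hδ₂ hε0
  have e5 : ∀ᶠ M : ℕ in atTop, 2 * π / M ≤ ρ := by
    have : Tendsto (fun N : ℕ => 2 * π / (N : ℝ)) atTop (𝓝 0) :=
      tendsto_const_div_atTop_nhds_zero_nat _
    exact (this.eventually_lt_const hρ0).mono (fun N hN => hN.le)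
  have e7 : ∀ᶠ M : ℕ in atTop, C ≤ ε' * M := by
    filter_upwards [eventually_ge_atTop ⌈C / ε'⌉₊] with M hM
    have := Nat.le_of_ceil_le hM
    rw [div_le_iff₀ hε0] at this
    linarith
  filter_upwards [e1, e3, e4, e5, hhor, kM_ge hα0, e7, eventually_ge_atTop 2] with
    M h1 h3 h4 h5 h6 h7 h8 hM2
  have hM0 : 0 < M := by omega
  have hMp : (0 : ℝ) < M := by exact_mod_cast hM0
  have hR := Rh_pos M
  have hMle := Rh_le M
  have hd := kM_lt hα0.le hα2 hM2
  have hdist' := kM_dist hα0.le M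
  set d := kM α₀ M with hdd
  set α : ℝ := 2 * π * d / Rh M - π with hα
  have hdist : |α - α₀| ≤ ρ := by
    refine le_trans hdist' (le_trans ?_ h5)
    exact div_le_div_of_nonneg_left (by positivity) hMp hMle
  have hclose := hρ α hdist
  refine ⟨d, hd, h7, ?_⟩
  intro h₀ hh₀
  have hb1π : |b₁| ≤ π := by rw [abs_of_pos hb10]; linarith
  rw [rect_path p M d hh₀ hh hhη hb1π, norm_mul, norm_neg, Complex.norm_ofNat]
  set k : ℝ := WT M d with hk
  have hk0 : 0 < k := WT_pos hd h7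
  have hnorm : ∀ z : ℂ, ‖((k : ℝ) : ℂ) * HT p M d z‖ = k * ‖HT p M d z‖ := by
    intro z
    rw [norm_mul, Complex.norm_real, Real.norm_eq_abs, abs_of_nonneg hk0.le]
  -- the pointwise bounds
  have hpt : ∀ b y : ℝ, h ≤ y → y ≤ η →
      Real.exp (Rh M / (4 * π) * hp m α b y - 2 * ε' * M) ≤
        k * ‖HT p M d (-b + y * Complex.I)‖ ∧
      k * ‖HT p M d (-b + y * Complex.I)‖ ≤
        Real.exp (Rh M / (4 * π) * hp m α b y + 2 * ε' * M) := by
    intro b y hy hy'
    have g1 := hpb M d hd b y hy hy'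
    have g3 := h1 d hd h7
    rw [← hk, ← hα] at g3
    rw [← hm, ← hα] at g1
    have g4 : 0 < ‖HT p M d (-b + y * Complex.I)‖ :=
      norm_pos_iff.2 (HT_ne' p M d (b := b) (lt_of_lt_of_le hh hy))
    have g2 : 0 < k * ‖HT p M d (-b + y * Complex.I)‖ := mul_pos hk0 g4
    rw [← Real.le_log_iff_exp_le g2, ← Real.log_le_iff_le_exp g2,
      Real.log_mul hk0.ne' g4.ne']
    rw [abs_le] at g1 g3
    have e : Rh M / (4 * π) * (hp m α b y - 8 * GapVol.lob (α / 2)) =
      Rh M / (4 * π) * hp m α b y - Rh M / (4 * π) * (8 * GapVol.lob (α / 2)) := by ring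
    rw [e] at g1
    constructor <;> linarith [g1.1, g1.2, g3.1, g3.2]
  set E := Real.exp (Rh M / (4 * π) * (V - δ / 4) + 2 * ε' * M) with hE
  have hE0 : 0 < E := Real.exp_pos _
  have hpN : 0 < Rh M / (4 * π) := by positivity
  have hVδ : 0 ≤ V - δ / 4 := by linarith
  have hVN : 0 ≤ Rh M / (4 * π) * (V - δ / 4) := by positivity
  have hεM : 0 ≤ ε' * M := by positivity
  have hE1 : 1 ≤ E := by
    rw [hE, ← Real.exp_zero]
    apply Real.exp_le_exp.2
    linarith
  have key := path_sub_le (f := fun z => ((k : ℝ) : ℂ) * HT p M d z) hh.le hhη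
    (b := b₁) (by linarith) (B1 := 2 * Real.cosh h * E) (B2 := E) (B3 := E)
    (B5 := 2 * Real.cosh η * E) ?_ ?_ ?_ ?_
  · -- conclusion
    have hint : ‖∫ x in (-b₁)..π, ((k : ℝ) : ℂ) * HT p M d (x + η * Complex.I)‖ =
        k * ‖∫ x in (-b₁)..π, HT p M d (x + η * Complex.I)‖ := by
      rw [intervalIntegral.integral_const_mul, norm_mul, Complex.norm_real, Real.norm_eq_abs,
        abs_of_nonneg hk0.le]
    have hpth : ‖path (fun z => ((k : ℝ) : ℂ) * HT p M d z) h η b₁‖ =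
        k * ‖path (HT p M d) h η b₁‖ := by
      rw [path_mul, norm_mul, Complex.norm_real, Real.norm_eq_abs, abs_of_nonneg hk0.le]
    have key' : k * ‖∫ x in (-b₁)..π, HT p M d (x + η * Complex.I)‖ ≤
        k * ‖path (HT p M d) h η b₁‖ +
          (2 * Real.cosh h * E * h + E * (π - b₁) + E * (η - h) + 2 * Real.cosh η * E * η) := by
      rw [← hint, ← hpth]
      exact key
    have hrest : 2 * Real.cosh h * E * h + E * (π - b₁) + E * (η - h) + 2 * Real.cosh η * E * η ≤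
        E * K := by
      have g1 : E * (π - b₁) ≤ E * (2 * π) := mul_le_mul_of_nonneg_left (by linarith) hE0.le
      have g2 : E * (η - h) ≤ E * η := mul_le_mul_of_nonneg_left (by linarith) hE0.le
      have g3 : E * K = 2 * Real.cosh h * E * h + E * (2 * π) + E * η + 2 * Real.cosh η * E * η := by
        rw [hK]
        ring
      rw [g3]
      linarith
    have hmain := (hpt b₀ η hhη le_rfl).1
    have hpot : V - 4 * π * ε' ≤ hp m α b₀ η := by
      have := (abs_le.1 (hclose b₀ η hhη le_rfl)).1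
      have := min_le_right (δ / 4) (4 * π * ε')
      linarith
    have hR2 : Rh M ≤ 2 * M := by
      unfold Rh
      have : (1 : ℝ) ≤ M := by exact_mod_cast hM0
      linarith
    have hmain2 : Real.exp (Rh M / (4 * π) * V - 4 * ε' * M) ≤
        k * ‖HT p M d (-b₀ + η * Complex.I)‖ := by
      refine le_trans (Real.exp_le_exp.2 ?_) hmain
      have : Rh M / (4 * π) * (V - 4 * π * ε') ≤ Rh M / (4 * π) * hp m α b₀ η :=
        mul_le_mul_of_nonneg_left hpot hpN.le
      have e : Rh M / (4 * π) * (V - 4 * π * ε') = Rh M / (4 * π) * V - ε' * Rh M := by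
        field_simp
      have e7 : ε' * Rh M ≤ ε' * (2 * M) := mul_le_mul_of_nonneg_left hR2 hε0.le
      linarith
    have hsq : 0 < δ₂ / Real.sqrt M := by
      have : 0 < Real.sqrt M := Real.sqrt_pos.2 hMp
      positivity
    set G := Real.exp (Rh M / (4 * π) * V - 4 * ε' * M) with hG'
    have hG0 : 0 < G := Real.exp_pos _
    have hlow : G * (δ₂ / Real.sqrt M) ≤
        k * ‖∫ x in (-b₁)..π, HT p M d (x + η * Complex.I)‖ := by
      calc G * (δ₂ / Real.sqrt M) ≤ (k * ‖HT p M d (-b₀ + η * Complex.I)‖) * (δ₂ / Real.sqrt M) :=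
            mul_le_mul_of_nonneg_right hmain2 hsq.le
        _ = k * (‖HT p M d (-b₀ + η * Complex.I)‖ * (δ₂ / Real.sqrt M)) := by ring
        _ ≤ _ := mul_le_mul_of_nonneg_left h6 hk0.le
    -- E K ≤ G δ₂/(2 √M)
    have hEG : E * K ≤ G * (δ₂ / Real.sqrt M) / 2 := by
      have hexp : E ≤ G * Real.exp (-(ε' * M)) := by
        rw [hE, hG', ← Real.exp_add]
        apply Real.exp_le_exp.2
        have : Rh M / (4 * π) * (V - δ / 4) = Rh M / (4 * π) * V - δ / (16 * π) * Rh M := by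
          field_simp
          ring
        rw [this]
        have h7 : 7 * ε' ≤ δ / (16 * π) := by
          rw [le_div_iff₀ (by positivity)]
          nlinarith
        have h8 : 7 * ε' * M ≤ δ / (16 * π) * Rh M :=
          mul_le_mul h7 hMle hMp.le (by positivity)
        linarith
      have h9 : Real.exp (-(ε' * M)) * K ≤ δ₂ / Real.sqrt M / 2 := by
        calc Real.exp (-(ε' * M)) * K ≤ (δ₂ / (2 * K) / Real.sqrt M) * K :=
              mul_le_mul_of_nonneg_right h3 hK0.le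
          _ = δ₂ / Real.sqrt M / 2 := by
            field_simp
      calc E * K ≤ (G * Real.exp (-(ε' * M))) * K := mul_le_mul_of_nonneg_right hexp hK0.le
        _ = G * (Real.exp (-(ε' * M)) * K) := by ring
        _ ≤ G * (δ₂ / Real.sqrt M / 2) := mul_le_mul_of_nonneg_left h9 hG0.le
        _ = _ := by ring
    have hfin : G * (δ₂ / Real.sqrt M) / 2 ≤ k * ‖path (HT p M d) h η b₁‖ := by
      linarith
    have h10 : Real.exp (Rh M / (4 * π) * V - ε * M) ≤ G * Real.exp (-(ε' * M)) := by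
      rw [hG', ← Real.exp_add]
      apply Real.exp_le_exp.2
      have : 5 * ε' * M ≤ ε * M := mul_le_mul_of_nonneg_right (by linarith) hMp.le
      linarith
    calc Real.exp (Rh M / (4 * π) * V - ε * M) ≤ G * Real.exp (-(ε' * M)) := h10
      _ ≤ G * (δ₂ / Real.sqrt M) := mul_le_mul_of_nonneg_left h4 hG0.le
      _ = 2 * (G * (δ₂ / Real.sqrt M) / 2) := by ring
      _ ≤ 2 * (k * ‖path (HT p M d) h η b₁‖) := by linarith
      _ = k * (2 * ‖path (HT p M d) h η b₁‖) := by ring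
  · intro y hy hy'
    rw [hnorm]
    refine le_trans (hV p M d hd h7 y hy).2 ?_
    have hs1 : 2 * Real.cosh y ≤ 2 * Real.cosh h := by
      have : Real.cosh y ≤ Real.cosh h := by
        rw [Real.cosh_le_cosh, abs_of_nonneg hy, abs_of_nonneg hh.le]
        exact hy'
      linarith
    apply mul_le_mul hs1 _ (Real.exp_pos _).le (by positivity)
    apply Real.exp_le_exp.2
    have hmy : m * y ≤ m * h := mul_le_mul_of_nonneg_left hy' hm0.le
    have h7' : (p : ℝ) * Rh M * y / 4 ≤ Rh M / (4 * π) * (V - δ / 4) := by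
      have e : (p : ℝ) * Rh M * y / 4 = Rh M / (4 * π) * (2 * π * (m * y)) := by
        rw [hAm]
        field_simp
      rw [e]
      apply mul_le_mul_of_nonneg_left _ hpN.le
      nlinarith
    linarith
  · intro x hx hx'
    rw [hnorm]
    refine le_trans (hpt x h le_rfl hhη).2 ?_
    apply Real.exp_le_exp.2
    have h7' : hp m α x h ≤ V - δ / 4 := by
      have := (abs_le.1 (hclose x h le_rfl hhη)).2
      have := w1 x hx hx'
      have := min_le_left (δ / 4) (4 * π * ε')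
      linarith
    have := mul_le_mul_of_nonneg_left h7' hpN.le
    linarith
  · intro y hy hy'
    rw [hnorm]
    refine le_trans (hpt b₁ y hy hy').2 ?_
    apply Real.exp_le_exp.2
    have h7' : hp m α b₁ y ≤ V - δ / 4 := by
      have := (abs_le.1 (hclose b₁ y hy hy')).2
      have := w2 y hy hy'
      have := min_le_left (δ / 4) (4 * π * ε')
      linarith
    have := mul_le_mul_of_nonneg_left h7' hpN.le
    linarith
  · intro y hy hy'
    rw [hnorm]
    refine le_trans (hV p M d hd h7 y hy).1 ?_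
    have hs1 : Real.cosh y ≤ Real.cosh η := by
      rw [Real.cosh_le_cosh, abs_of_nonneg hy, abs_of_nonneg hη.le]
      exact hy'
    have : 2 * Real.cosh η * 1 ≤ 2 * Real.cosh η * E :=
      mul_le_mul_of_nonneg_left hE1 (by positivity)
    linarith

/-- **the lower bound for one `k`, `p = 3`** (the hypothesis on the contour is a theorem of
helper11) -/
theorem plow3 (_hP : S_PPATH) (hV : S_PVERT) (hB : S_PPBF) (hW : S_PLOGW) (hL : S_PLAP3) :
    S_PLOW3 := by
  intro α₀ b₀ η hC3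
  exact plow3' hV hB hW hL hC3 rfl

end Pool.Agent.H52.CYC
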