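import Pool.Agent.H62.CYC.DefsP
import Pool.Graph.R_seed8.W376.BX.Up

/-!
# Project CYC, second part, module PUP: the upper bound for the transform
-/

set_option autoImplicit false

namespace Pool.Agent.H52.CYC

open Filter Finset Pool.Agent.W709.VC Pool.Agent.H62.CYC
open Pool.Agent.W707.TV (Rh RH)
open Pool.Agent.W719.BX (hp Crit2)
open Pool.Agent.W376.BX (le_exp_of_log)
open scoped Real Topology

theorem Rh_eq (M : ℕ) : Rh M = M + 1 / 2 := rfl

theorem WT_nonneg (M k : ℕ) : 0 ≤ WT M k := prod_nonneg fun _ _ => sq_nonneg _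

/-- the left vertical side avoids the poles -/
theorem sin_ne (M : ℕ) (y : ℝ) :
    Complex.sin (Rh M * ((-π : ℝ) + y * Complex.I)) ≠ 0 := by
  intro h
  rw [Complex.sin_eq_zero_iff] at h
  obtain ⟨n, hn⟩ := h
  have h1 := congrArg Complex.re hn
  simp only [Complex.mul_re, Complex.add_re, Complex.ofReal_re, Complex.I_re, Complex.ofReal_im,
    Complex.I_im, Complex.add_im, Complex.mul_im, Complex.intCast_re, Complex.intCast_im] at h1
  have h2 : (Rh M + n) * π = 0 := by
    have : Rh M * -π = n * π := by linarith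
    linarith
  have h3 : Rh M + n = 0 := by
    rcases mul_eq_zero.1 h2 with h3 | h3
    · exact h3
    · exact absurd h3 Real.pi_ne_zero
  rw [Rh_eq] at h3
  have h4 : (2 * (M : ℤ) + 1 + 2 * n : ℤ) = 0 := by
    have : (2 * (M : ℝ) + 1 + 2 * (n : ℝ)) = 0 := by linarith
    exact_mod_cast this
  omega

theorem cont_left (p M k : ℕ) : Continuous fun y : ℝ => HT p M k (-π + y * Complex.I) := by
  unfold HT RH
  refine Continuous.div ?_ ?_ ?_
  · fun_prop
  · fun_prop
  · intro y
    have := sin_ne M y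
    push_cast at this
    exact this

/-- the path with `b = π` does not depend on `h` -/
theorem path_pi (p M k : ℕ) (h η : ℝ) :
    path (HT p M k) h η π = Complex.I * (∫ y in (0:ℝ)..η, HT p M k (-π + y * Complex.I)) +
      (∫ x in (-π)..π, HT p M k (x + η * Complex.I)) -
      Complex.I * (∫ y in (0:ℝ)..η, HT p M k (π + y * Complex.I)) := by
  have h1 := intervalIntegral.integral_add_adjacent_intervals
    ((cont_left p M k).intervalIntegrable (μ := MeasureTheory.volume) 0 h)
    ((cont_left p M k).intervalIntegrable (μ := MeasureTheory.volume) h η)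
  unfold path
  rw [intervalIntegral.integral_same, ← h1]
  ring

theorem rect_indep (hP : S_PPATH) (p M k : ℕ) {h h' : ℝ} (hh : 0 < h) (hh' : 0 < h') :
    rect (HT p M k) (-π) π (-h') h' = rect (HT p M k) (-π) π (-h) h := by
  have hpi := Real.pi_pos
  have h1 := hP p M k h' (max h h') π hh' (le_max_right _ _) (by rw [abs_of_pos hpi])
  have h2 := hP p M k h (max h h') π hh (le_max_left _ _) (by rw [abs_of_pos hpi])
  rw [h1, h2, path_pi, path_pi]

theorem pup (hP : S_PPATH) (hV : S_PVERT) (hB : S_PPBF) (hW : S_PLOGW) (hC : Pool.Agent.W719.BX.S_BND) : S_PUP := by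
  intro p α₀ b₀ η hp4 hCr ε hε
  have hpi := Real.pi_pos
  have hp' : (4 : ℝ) ≤ p := by exact_mod_cast hp4
  set m : ℝ := (p : ℝ) / 2 with hm
  have hm2 : 2 ≤ m := by rw [hm]; linarith
  have hm0 : 0 < m := by linarith
  obtain ⟨hB1, hB2⟩ := hC m α₀ b₀ η hm2 hCr
  have hlob := lob6_pos
  set V := hp m α₀ b₀ η with hVd
  have hV0 : 0 ≤ V := by linarith
  have hη := hCr.hη
  set h : ℝ := min η (ε / (8 * m)) with hhd
  have hh : 0 < h := lt_min hη (by positivity)
  have hhη : h ≤ η := min_le_left _ _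
  have hhε : m * h ≤ ε / 8 := by
    have h1 := min_le_right η (ε / (8 * m))
    rw [← hhd, le_div_iff₀ (by positivity)] at h1
    linarith
  obtain ⟨C, hC0, hCb⟩ := hB p h η hh
  have hcosh : 1 ≤ Real.cosh η := Real.one_le_cosh η
  set K : ℝ := 2 * (2 * Real.cosh η * (η + η) + Real.exp C * (4 * π + η)) with hK
  have e2 := hW (ε / 8) (by positivity)
  have e4 : ∀ᶠ M : ℕ in atTop, K ≤ Real.exp (ε / 2 * M) := by
    have : Tendsto (fun M : ℕ => Real.exp (ε / 2 * (M : ℝ))) atTop atTop :=
      Real.tendsto_exp_atTop.comp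
        (Tendsto.const_mul_atTop (by positivity) tendsto_natCast_atTop_atTop)
    exact this.eventually_ge_atTop K
  filter_upwards [e2, e4, eventually_ge_atTop 1] with M h2 h4 hM1 k hkM hk2 h' hh'
  have hMp : (1 : ℝ) ≤ M := by exact_mod_cast hM1
  have hR : Rh M = M + 1 / 2 := rfl
  have hR0 : 0 < Rh M := by rw [hR]; linarith
  have hR2 : Rh M ≤ 2 * M := by rw [hR]; linarith
  -- the angle
  set α : ℝ := 2 * π * k / Rh M - π with hα
  have hα0 : 0 ≤ α := by
    have h5 : (M : ℝ) + 1 ≤ 2 * k := by exact_mod_cast hk2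
    have h6 : π ≤ 2 * π * k / Rh M := by
      rw [le_div_iff₀ hR0, hR]
      nlinarith
    linarith
  have hαπ : α ≤ π := by
    have h5 : (k : ℝ) + 1 ≤ M := by exact_mod_cast hkM
    have h6 : 2 * π * k / Rh M ≤ 2 * π := by
      rw [div_le_iff₀ hR0, hR]
      nlinarith
    linarith
  obtain ⟨a1, a2, a3⟩ := hB2 α hα0 hαπ
  set b := π / m with hb
  have hpm : 0 < b := by positivity
  have hbπ : b ≤ π := by
    rw [hb, div_le_iff₀ hm0]
    nlinarith
  set c : ℝ := WT M k with hc
  have hc0 : 0 ≤ c := WT_nonneg M k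
  set E := Real.exp (Rh M / (4 * π) * V + ε / 2 * M) with hE
  have hE0 : 0 < E := Real.exp_pos _
  have hVN : 0 ≤ Rh M / (4 * π) * V := by positivity
  have hnorm : ∀ z : ℂ, ‖(c : ℂ) * HT p M k z‖ = c * ‖HT p M k z‖ := by
    intro z
    rw [norm_mul, Complex.norm_real, Real.norm_eq_abs, abs_of_nonneg hc0]
  have hpath : c * ‖rect (HT p M k) (-π) π (-h') h'‖ =
      2 * ‖path (fun z => (c : ℂ) * HT p M k z) h η b‖ := by
    rw [rect_indep hP p M k hh hh', hP p M k h η b hh hhη (by rw [abs_of_nonneg hpm.le]; exact hbπ),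
      path_mul, norm_mul, norm_mul, Complex.norm_real, Real.norm_eq_abs, abs_of_nonneg hc0]
    simp only [norm_neg, Complex.norm_ofNat]
    ring
  rw [hpath]
  have hmhM : m * h * M ≤ ε / 8 * M := mul_le_mul_of_nonneg_right hhε (by linarith)
  -- the bound off the real axis
  have hpb : ∀ x y G : ℝ, h ≤ y → y ≤ η → hp m α x y ≤ V + G → G ≤ 2 * π * m * h →
      c * ‖HT p M k (-x + y * Complex.I)‖ ≤ Real.exp C * E := by
    intro x y G hy hy' hx1 hG
    rcases hc0.eq_or_lt with h0 | h0
    · rw [← h0, zero_mul]; positivity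
    rcases (norm_nonneg (HT p M k (-x + y * Complex.I))).eq_or_lt with h1 | h1
    · rw [← h1, mul_zero]; positivity
    have h5 := (abs_le.1 (hCb M k hkM x y hy hy')).2
    have h6 := (abs_le.1 (h2 k hkM hk2)).2
    rw [hE, ← Real.exp_add]
    apply le_exp_of_log (by positivity)
    rw [Real.log_mul h0.ne' h1.ne']
    have h7 : Rh M / (4 * π) * hp m α x y ≤ Rh M / (4 * π) * (V + 2 * π * m * h) := by
      apply mul_le_mul_of_nonneg_left _ (by positivity)
      linarith
    have h8 : Rh M / (4 * π) * (V + 2 * π * m * h) = Rh M / (4 * π) * V + Rh M * (m * h) / 2 := by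
      field_simp
      ring
    have h9 : Rh M * (m * h) ≤ 2 * M * (m * h) :=
      mul_le_mul_of_nonneg_right hR2 (by positivity)
    have h10 : Rh M / (4 * π) * (hp m α x y - 8 * GapVol.lob (α / 2)) =
        Rh M / (4 * π) * hp m α x y - Rh M / (4 * π) * (8 * GapVol.lob (α / 2)) := by ring
    rw [h10] at h5
    have hεM : 0 ≤ ε / 8 * M := by positivity
    linarith
  have hG0 : (0 : ℝ) ≤ 2 * π * m * h := by positivity
  have key := path_le (f := fun z => (c : ℂ) * HT p M k z) hh.le hhη
    (b := b) (by linarith) hbπ (B1 := 2 * Real.cosh η * E) (B2 := Real.exp C * E)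
    (B3 := Real.exp C * E) (B4 := Real.exp C * E) (B5 := 2 * Real.cosh η * E) ?_ ?_ ?_ ?_ ?_
  · have hsplit : Real.exp (Rh M / (4 * π) * V + ε * M) = E * Real.exp (ε / 2 * M) := by
      rw [hE, ← Real.exp_add]
      congr 1
      ring
    rw [hsplit]
    have hCE : 0 < Real.exp C * E := by positivity
    have hfin : 2 * Real.cosh η * E * h + Real.exp C * E * (π - b) + Real.exp C * E * (η - h) +
        Real.exp C * E * (π + b) + 2 * Real.cosh η * E * η ≤ E * (K / 2) := by
      rw [hK]
      have i1 : Real.exp C * E * (π - b) ≤ Real.exp C * E * (2 * π) :=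
        mul_le_mul_of_nonneg_left (by linarith) hCE.le
      have i2 : Real.exp C * E * (η - h) ≤ Real.exp C * E * η :=
        mul_le_mul_of_nonneg_left (by linarith) hCE.le
      have i3 : Real.exp C * E * (π + b) ≤ Real.exp C * E * (2 * π) :=
        mul_le_mul_of_nonneg_left (by linarith) hCE.le
      have i4 : 2 * Real.cosh η * E * h ≤ 2 * Real.cosh η * E * η :=
        mul_le_mul_of_nonneg_left hhη (by positivity)
      linarith
    have hKE : E * K ≤ E * Real.exp (ε / 2 * M) := mul_le_mul_of_nonneg_left h4 hE0.le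
    linarith
  · intro y hy hy'
    rw [hnorm]
    refine le_trans (hV p M k hkM hk2 y hy).2 ?_
    have hs1 : Real.cosh y ≤ Real.cosh η := Real.cosh_le_cosh.2 (by
      rw [abs_of_nonneg hy, abs_of_pos hη]; linarith)
    have hs0 : 0 < Real.cosh y := Real.cosh_pos y
    apply mul_le_mul (by linarith) _ (Real.exp_pos _).le (by positivity)
    apply Real.exp_le_exp.2
    have h5 : (p : ℝ) * Rh M * y / 4 = Rh M * (m * y) / 2 := by rw [hm]; ring
    have h6 : m * y ≤ m * h := mul_le_mul_of_nonneg_left hy' hm0.le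
    have h7 : Rh M * (m * y) ≤ 2 * M * (m * h) :=
      mul_le_mul hR2 h6 (by positivity) (by positivity)
    rw [h5]
    have hεM : 0 ≤ ε / 8 * M := by positivity
    linarith
  · intro x hx hx'
    rw [hnorm]
    refine hpb x h (2 * π * m * h) le_rfl hhη ?_ le_rfl
    have h5 := a3 h x hh hhη hx hx'
    have h6 := a1 b (by linarith) le_rfl
    linarith
  · intro y hy hy'
    rw [hnorm]
    refine hpb b y 0 hy hy' ?_ hG0
    have h5 := a2 y (by linarith) hy'
    have h6 := a1 b (by linarith) le_rfl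
    linarith
  · intro x hx hx'
    rw [hnorm]
    refine hpb x η 0 hhη le_rfl ?_ hG0
    have := a1 x hx hx'
    linarith
  · intro y hy hy'
    rw [hnorm]
    refine le_trans (hV p M k hkM hk2 y hy).1 ?_
    have hs1 : Real.cosh y ≤ Real.cosh η := Real.cosh_le_cosh.2 (by
      rw [abs_of_nonneg hy, abs_of_pos hη]; linarith)
    have hE1 : 1 ≤ E := by
      rw [hE]
      apply Real.one_le_exp
      have : 0 ≤ ε / 2 * M := by positivity
      linarith
    calc 2 * Real.cosh y ≤ 2 * Real.cosh η * 1 := by linarith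
      _ ≤ 2 * Real.cosh η * E := mul_le_mul_of_nonneg_left hE1 (by positivity)

end Pool.Agent.H52.CYC
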