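import Pool.Agent.H62.CYC.DefsR

/-!
# Project CYC, task TRD: divided differences
-/

set_option autoImplicit false

namespace Pool.Agent.H52.CYC

open Finset Polynomial
open Pool.Agent.H62.CYC

/-- `∏_{l < k} (X - y_l)` -/
noncomputable def PP (y : ℕ → ℝ) (k : ℕ) : ℝ[X] := ∏ l ∈ range k, (X - C (y l))

lemma PP_monic (y : ℕ → ℝ) (k : ℕ) : (PP y k).Monic :=
  monic_prod_of_monic _ _ fun l _ => monic_X_sub_C (y l)

lemma PP_natDegree (y : ℕ → ℝ) (k : ℕ) : (PP y k).natDegree = k := by
  unfold PP
  rw [natDegree_prod_of_monic _ _ fun l _ => monic_X_sub_C (y l)]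
  simp

lemma PP_eval (y : ℕ → ℝ) (k : ℕ) (x : ℝ) : (PP y k).eval x = ∏ l ∈ range k, (x - y l) := by
  unfold PP
  rw [eval_prod]
  simp

lemma PP_coeff_self (y : ℕ → ℝ) (k : ℕ) : (PP y k).coeff k = 1 := by
  have h := PP_monic y k
  rw [Monic, leadingCoeff, PP_natDegree] at h
  exact h

lemma PP_coeff_lt (y : ℕ → ℝ) {k m : ℕ} (h : k < m) : (PP y k).coeff m = 0 :=
  coeff_eq_zero_of_natDegree_lt (by rw [PP_natDegree]; exact h)

lemma key (M : ℕ) (y w : ℕ → ℝ) (f : ℕ → ℕ → ℝ) (U : ℕ → ℝ[X])
    (hy : ∀ i < M, ∀ j < M, i ≠ j → y i ≠ y j) (hw : ∀ i < M, w i ≠ 0)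
    (hf : ∀ i < M, ∀ j < M, f i j = f j i)
    (hU : ∀ i < M, (U i).natDegree ≤ i)
    (hfU : ∀ i < M, ∀ j < M, f i j = w j * (U i).eval (y j)) :
    ∀ i, i < M → ∀ j < M, f i j = ∑ k ∈ range M,
      (w i * ∏ l ∈ range k, (y i - y l)) * (w j * ∏ l ∈ range k, (y j - y l)) *
        ((U k).coeff k / (w k * ∏ l ∈ range k, (y k - y l))) := by
  intro i
  induction i using Nat.strong_induction_on with
  | _ i ih =>
    intro hi
    set c : ℕ → ℝ := fun k => (U k).coeff k / (w k * ∏ l ∈ range k, (y k - y l)) with hc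
    have hSne : (∏ l ∈ range i, (y i - y l)) ≠ 0 := by
      rw [Finset.prod_ne_zero_iff]
      intro l hl
      rw [mem_range] at hl
      exact sub_ne_zero.2 (hy i hi l (hl.trans hi) (by omega))
    set V : ℝ[X] := U i - ∑ k ∈ range (i + 1),
      C (w i * (∏ l ∈ range k, (y i - y l)) * c k) * PP y k with hV
    have hdeg : V.degree < (i : WithBot ℕ) := by
      rw [degree_lt_iff_coeff_zero]
      intro m hm
      rw [hV, coeff_sub, finsetSum_coeff]
      rcases eq_or_lt_of_le hm with h | h
      · subst h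
        rw [sum_range_succ, sum_eq_zero, zero_add, coeff_C_mul, PP_coeff_self, mul_one, hc]
        · have := hw i hi
          field_simp
          ring
        · intro k hk
          rw [mem_range] at hk
          rw [coeff_C_mul, PP_coeff_lt y hk, mul_zero]
      · rw [coeff_eq_zero_of_natDegree_lt (lt_of_le_of_lt (hU i hi) h), sum_eq_zero, sub_zero]
        intro k hk
        rw [mem_range] at hk
        rw [coeff_C_mul, PP_coeff_lt y (by omega), mul_zero]
    have hev : ∀ j < M, w j * V.eval (y j) = f i j - ∑ k ∈ range M,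
        (w i * ∏ l ∈ range k, (y i - y l)) * (w j * ∏ l ∈ range k, (y j - y l)) * c k := by
      intro j hj
      rw [hV, eval_sub, eval_finsetSum, mul_sub, ← hfU i hi j hj, mul_sum]
      congr 1
      rw [← sum_subset (range_subset_range.2 (Nat.succ_le_of_lt hi) : range (i + 1) ⊆ range M)]
      · apply sum_congr rfl
        intro k _
        rw [eval_mul, eval_C, PP_eval]
        ring
      · intro k _ hk
        rw [mem_range, not_lt] at hk
        rw [prod_eq_zero (i := i) (mem_range.2 (by omega)) (sub_self (y i))]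
        ring
    have hV0 : V = 0 := by
      apply eq_zero_of_degree_lt_of_eval_finset_eq_zero ((range i).image y)
      · rw [card_image_of_injOn]
        · simpa using hdeg
        · intro a ha b hb hab
          simp only [coe_range, Set.mem_Iio] at ha hb
          by_contra hne
          exact hy a (ha.trans hi) b (hb.trans hi) hne hab
      · intro x hx
        rw [mem_image] at hx
        obtain ⟨j, hj, rfl⟩ := hx
        rw [mem_range] at hj
        have hjM := hj.trans hi
        have h1 := hev j hjM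
        rw [hf i hi j hjM, ih j hj hjM i hi, ← sum_sub_distrib, sum_eq_zero] at h1
        · rcases mul_eq_zero.1 h1 with h2 | h2
          · exact absurd h2 (hw j hjM)
          · exact h2
        · intro k _
          simp only [hc]
          ring
    intro j hj
    have h1 := hev j hj
    rw [hV0, eval_zero, mul_zero] at h1
    linarith

theorem trd : S_TRD := by
  intro M y w f U t s hy hw hf hU hfU
  have hk := key M y w f U hy hw hf hU hfU
  have h1 : ∀ i ∈ range M, ∀ j ∈ range M, t i * s j * (f i j : ℂ) = ∑ k ∈ range M,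
      ((w i : ℂ) * (∏ l ∈ range k, ((y i : ℂ) - y l)) * t i) *
      ((w j : ℂ) * (∏ l ∈ range k, ((y j : ℂ) - y l)) * s j) *
      ((((U k).coeff k : ℝ) : ℂ) / ((w k : ℂ) * ∏ l ∈ range k, ((y k : ℂ) - y l))) := by
    intro i hi j hj
    rw [hk i (mem_range.1 hi) j (mem_range.1 hj)]
    push_cast
    rw [mul_sum]
    apply sum_congr rfl
    intro k _
    ring
  rw [sum_congr rfl fun i hi => sum_congr rfl fun j hj => h1 i hi j hj]
  rw [sum_congr rfl fun i _ => sum_comm, sum_comm]
  apply sum_congr rfl
  intro k _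
  rw [sum_mul_sum, mul_div_assoc, sum_mul]
  apply sum_congr rfl
  intro i _
  rw [sum_mul]

end Pool.Agent.H52.CYC
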